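import Pool.Agent.Y17.G.Defs
import Pool.Agent.Z927.Abs

/-!
Project Z17G: the abstract sum over subsets with parity conditions (ABS1, ABS2, ABS3).
-/

set_option autoImplicit false

namespace Pool.Agent.Y948.G

open Finset
open Pool.Agent.Y17.G
open Pool.Agent.Z927 (pm_prod pm_pow sum_parity)

/-! ### the sum over the subsets of a given type -/

/-- the sign of a prime -/
def sg (a b : ℤ) (p : ℕ) : ℤ := (if p % 8 = 3 then a else 1) * (if p % 8 = 5 then b else 1)

theorem prod_sg (a b : ℤ) (D : Finset ℕ) :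
    ∏ p ∈ D, sg a b p = a ^ (i3 D).card * b ^ (i5 D).card := by
  unfold sg i3 i5
  rw [Finset.prod_mul_distrib, ← Finset.prod_filter, ← Finset.prod_filter, Finset.prod_const,
    Finset.prod_const]

theorem prod_expand (a b : ℤ) (A : Finset ℕ) (c : ℕ → ℤ) :
    ∏ p ∈ A, (1 + sg a b p * c p) =
      ∑ D ∈ A.powerset, a ^ (i3 D).card * b ^ (i5 D).card * ∏ p ∈ D, c p := by
  rw [Finset.prod_one_add]
  refine Finset.sum_congr rfl fun D _ => ?_
  rw [Finset.prod_mul_distrib, prod_sg]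

theorem prod_split (a b : ℤ) (A : Finset ℕ) (c : ℕ → ℤ)
    (hA : ∀ p ∈ A, p % 8 = 1 ∨ p % 8 = 3 ∨ p % 8 = 5) :
    ∏ p ∈ A, (1 + sg a b p * c p) =
      (∏ p ∈ sp A, (1 + c p)) * (∏ p ∈ i3 A, (1 + a * c p)) * ∏ p ∈ i5 A, (1 + b * c p) := by
  unfold sp i3 i5
  rw [Finset.prod_filter, Finset.prod_filter, Finset.prod_filter, ← Finset.prod_mul_distrib,
    ← Finset.prod_mul_distrib]
  refine Finset.prod_congr rfl fun p hp => ?_
  unfold sg
  rcases hA p hp with h | h | h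
  · rw [if_neg (by omega), if_neg (by omega), if_pos h, if_neg (by omega), if_neg (by omega)]
    ring
  · rw [if_pos h, if_neg (by omega), if_neg (by omega), if_pos h, if_neg (by omega)]
    ring
  · rw [if_neg (by omega), if_pos h, if_neg (by omega), if_neg (by omega), if_pos h]
    ring

open Classical in
theorem two_prod (B : Finset ℕ) (c : ℕ → ℤ) (hc : ∀ p ∈ B, c p = 1 ∨ c p = -1) (ε : ℤ)
    (hε : ε = 1 ∨ (ε = -1 ∧ B.Nonempty)) :
    ∃ τ : ℤ, (τ = 1 ∨ τ = -1) ∧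
      ∏ p ∈ B, (1 + 1 * c p) + ε * ∏ p ∈ B, (1 + (-1) * c p) =
        if ∀ r ∈ B, ∀ r' ∈ B, c r = c r' then 2 * (2 ^ (B.card - 1) * τ) else 0 := by
  rcases B.eq_empty_or_nonempty with rfl | hB
  · have hε1 : ε = 1 := by
      rcases hε with h | ⟨-, h⟩
      · exact h
      · exact absurd h Finset.not_nonempty_empty
    refine ⟨1, Or.inl rfl, ?_⟩
    rw [if_pos (fun r hr => absurd hr (Finset.notMem_empty r)), hε1]
    simp
  · obtain ⟨r0, hr0⟩ := hB
    have hcard : 0 < B.card := Finset.card_pos.2 ⟨r0, hr0⟩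
    have hpow : (2 : ℤ) ^ B.card = 2 * 2 ^ (B.card - 1) := by
      conv_lhs => rw [← Nat.sub_add_cancel hcard]
      rw [pow_succ]; ring
    have hε' : ε = 1 ∨ ε = -1 := by
      rcases hε with h | ⟨h, -⟩
      · exact Or.inl h
      · exact Or.inr h
    have hz1 : ∀ r ∈ B, c r = -1 → ∏ p ∈ B, (1 + 1 * c p) = 0 := fun r hr h =>
      Finset.prod_eq_zero hr (by rw [h]; norm_num)
    have hz2 : ∀ r ∈ B, c r = 1 → ∏ p ∈ B, (1 + (-1) * c p) = 0 := fun r hr h =>
      Finset.prod_eq_zero hr (by rw [h]; norm_num)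
    by_cases hcon : ∀ r ∈ B, ∀ r' ∈ B, c r = c r'
    · rcases hc r0 hr0 with h | h
      · refine ⟨1, Or.inl rfl, ?_⟩
        have h1 : ∏ p ∈ B, (1 + 1 * c p) = 2 ^ B.card := by
          rw [← Finset.prod_const]
          refine Finset.prod_congr rfl fun p hp => ?_
          rw [hcon p hp r0 hr0, h]; norm_num
        rw [if_pos hcon, hz2 r0 hr0 h, h1, hpow]
        ring
      · refine ⟨ε, hε', ?_⟩
        have h1 : ∏ p ∈ B, (1 + (-1) * c p) = 2 ^ B.card := by
          rw [← Finset.prod_const]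
          refine Finset.prod_congr rfl fun p hp => ?_
          rw [hcon p hp r0 hr0, h]; norm_num
        rw [if_pos hcon, hz1 r0 hr0 h, h1, hpow]
        ring
    · refine ⟨1, Or.inl rfl, ?_⟩
      rw [if_neg hcon]
      push Not at hcon
      obtain ⟨r, hr, r', hr', hne⟩ := hcon
      rcases hc r hr with h | h <;> rcases hc r' hr' with h' | h'
      · exact absurd (h.trans h'.symm) hne
      · rw [hz1 r' hr' h', hz2 r hr h]; ring
      · rw [hz1 r hr h, hz2 r' hr' h']; ring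
      · exact absurd (h.trans h'.symm) hne

open Classical in
theorem sum_adm (A : Finset ℕ) (k : ℕ) (hk : k = 0 ∨ (k = 1 ∧ (i3 A).Nonempty))
    (hA : ∀ p ∈ A, p % 8 = 1 ∨ p % 8 = 3 ∨ p % 8 = 5) (c : ℕ → ℤ)
    (hc : ∀ p ∈ A, c p = 1 ∨ c p = -1) :
    ∃ τ : ℤ, (τ = 1 ∨ τ = -1) ∧
      ∑ D1 ∈ adm k A, ∏ p ∈ D1, c p = if cnd A c then 2 ^ ex A * τ else 0 := by
  have hk01 : k = 0 ∨ k = 1 := by
    rcases hk with h | ⟨h, -⟩
    · exact Or.inl h
    · exact Or.inr h
  set ε : ℤ := (-1) ^ k with hεd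
  have hε : ε = 1 ∨ (ε = -1 ∧ (i3 A).Nonempty) := by
    rcases hk with h | ⟨h, h'⟩
    · left; rw [hεd, h, pow_zero]
    · right; exact ⟨by rw [hεd, h, pow_one], h'⟩
  have h4 : 4 * ∑ D1 ∈ adm k A, ∏ p ∈ D1, c p =
      (∏ p ∈ sp A, (1 + c p)) *
        (∏ p ∈ i3 A, (1 + 1 * c p) + ε * ∏ p ∈ i3 A, (1 + (-1) * c p)) *
        (∏ p ∈ i5 A, (1 + 1 * c p) + 1 * ∏ p ∈ i5 A, (1 + (-1) * c p)) := by
    have e1 : 4 * ∑ D1 ∈ adm k A, ∏ p ∈ D1, c p =
        ∏ p ∈ A, (1 + sg 1 1 p * c p) + ∏ p ∈ A, (1 + sg 1 (-1) p * c p) +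
          ε * (∏ p ∈ A, (1 + sg (-1) 1 p * c p) +
            ∏ p ∈ A, (1 + sg (-1) (-1) p * c p)) := by
      rw [prod_expand, prod_expand, prod_expand, prod_expand, ← Finset.sum_add_distrib,
        ← Finset.sum_add_distrib, adm, Finset.sum_filter, Finset.mul_sum, Finset.mul_sum,
        ← Finset.sum_add_distrib]
      refine Finset.sum_congr rfl fun D _ => ?_
      have h3 := neg_one_pow_eq_pow_mod_two (R := ℤ) (i3 D).card
      have h5 := neg_one_pow_eq_pow_mod_two (R := ℤ) (i5 D).card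
      rw [one_pow, one_pow, h3, h5, hεd]
      by_cases hT : Ty k D
      · rw [if_pos hT]
        obtain ⟨a, b⟩ := hT
        rw [a, b]
        rcases hk01 with hk' | hk' <;> rw [hk'] <;> ring
      · rw [if_neg hT]
        rcases Nat.mod_two_eq_zero_or_one (i3 D).card with h | h <;>
        rcases Nat.mod_two_eq_zero_or_one (i5 D).card with h' | h' <;>
        rcases hk01 with hk' | hk' <;>
        first
          | (rw [h, h', hk']; ring; done)
          | (refine absurd (show Ty k D from ⟨?_, ?_⟩) hT <;> omega)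
    rw [e1, prod_split _ _ A c hA, prod_split _ _ A c hA, prod_split _ _ A c hA,
      prod_split _ _ A c hA]
    ring
  have hs : ∀ p ∈ sp A, c p = 1 ∨ c p = -1 := fun p hp => hc p (Finset.mem_filter.1 hp).1
  obtain ⟨τ3, hτ3, h3⟩ := two_prod (i3 A) c (fun p hp => hc p (Finset.mem_filter.1 hp).1) ε hε
  obtain ⟨τ5, hτ5, h5⟩ := two_prod (i5 A) c (fun p hp => hc p (Finset.mem_filter.1 hp).1) 1
    (Or.inl rfl)
  rw [h3, h5] at h4
  have hsp : ∏ p ∈ sp A, (1 + c p) = if ∀ p ∈ sp A, c p = 1 then 2 ^ (sp A).card else 0 := by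
    split_ifs with h
    · rw [← Finset.prod_const]
      refine Finset.prod_congr rfl fun p hp => ?_
      rw [h p hp]; norm_num
    · push Not at h
      obtain ⟨p, hp, hne⟩ := h
      exact Finset.prod_eq_zero hp (by rw [(hs p hp).resolve_left hne]; norm_num)
  rw [hsp] at h4
  refine ⟨τ3 * τ5, ?_, ?_⟩
  · rcases hτ3 with h | h <;> rcases hτ5 with h' | h' <;> rw [h, h'] <;> norm_num
  · by_cases hcn : cnd A c
    · obtain ⟨c1, c2, c3⟩ := hcn
      rw [if_pos c1, if_pos c2, if_pos c3] at h4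
      rw [if_pos (show cnd A c from ⟨c1, c2, c3⟩)]
      unfold ex
      rw [pow_add, pow_add]
      linarith
    · rw [if_neg hcn]
      unfold cnd at hcn
      have h6 : 4 * ∑ D1 ∈ adm k A, ∏ p ∈ D1, c p = 0 := by
        rw [h4]
        by_cases c1 : ∀ p ∈ sp A, c p = 1
        · by_cases c2 : ∀ r ∈ i3 A, ∀ r' ∈ i3 A, c r = c r'
          · have c3 : ¬ ∀ r ∈ i5 A, ∀ r' ∈ i5 A, c r = c r' := fun c3 => hcn ⟨c1, c2, c3⟩
            rw [if_neg c3, mul_zero]
          · rw [if_neg c2, mul_zero, zero_mul]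
        · rw [if_neg c1, zero_mul, zero_mul]
      linarith

section
variable {ι : Type} [Fintype ι] [DecidableEq ι]

theorem mem_TC {V : ι → ℕ} {e : ι → ℕ → ℤ} {χ : ℕ → ℤ} {A : Finset ℕ} {x : ι → ℕ} :
    x ∈ TC V e χ A ↔ (∀ i, x i ≤ V i) ∧ cnd A fun p => χ p * ∏ i, (e i p) ^ (x i) := by
  classical
  rw [TC, Finset.mem_filter, Fintype.mem_piFinset]
  simp only [Finset.mem_range, Nat.lt_succ_iff]

theorem abs_sum (V : ι → ℕ) (s : ι → ℤ) (e : ι → ℕ → ℤ) (χ : ℕ → ℤ) (A : Finset ℕ) (k : ℕ)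
    (hk : k = 0 ∨ (k = 1 ∧ (i3 A).Nonempty))
    (hA : ∀ p ∈ A, p % 8 = 1 ∨ p % 8 = 3 ∨ p % 8 = 5) (hs : ∀ i, s i = 1 ∨ s i = -1)
    (he : ∀ i, ∀ p ∈ A, e i p = 1 ∨ e i p = -1) (hχ : ∀ p ∈ A, χ p = 1 ∨ χ p = -1) :
    ∃ τ : (ι → ℕ) → ℤ, (∀ x, τ x = 1 ∨ τ x = -1) ∧
      ∑ D1 ∈ adm k A, (∏ p ∈ D1, χ p) *
        ∏ i, ∑ j ∈ range (V i + 1), (s i * ∏ p ∈ D1, e i p) ^ j =
      2 ^ ex A * ∑ x ∈ TC V e χ A, τ x := by
  classical
  have h1 : ∀ D1 ∈ adm k A, (∏ p ∈ D1, χ p) *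
      ∏ i, ∑ j ∈ range (V i + 1), (s i * ∏ p ∈ D1, e i p) ^ j =
      ∑ x ∈ Fintype.piFinset fun i => range (V i + 1),
        (∏ i, (s i) ^ (x i)) * ∏ p ∈ D1, (χ p * ∏ i, (e i p) ^ (x i)) := by
    intro D1 _
    rw [Finset.prod_univ_sum, Finset.mul_sum]
    refine Finset.sum_congr rfl fun x _ => ?_
    have e1 : ∏ i, (s i * ∏ p ∈ D1, e i p) ^ x i =
        (∏ i, s i ^ x i) * ∏ p ∈ D1, ∏ i, e i p ^ x i := by
      rw [Finset.prod_comm, ← Finset.prod_mul_distrib]
      refine Finset.prod_congr rfl fun i _ => ?_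
      rw [mul_pow, ← Finset.prod_pow]
    rw [e1, Finset.prod_mul_distrib]
    ring
  rw [Finset.sum_congr rfl h1, Finset.sum_comm]
  have h2 : ∀ x : ι → ℕ, ∃ τ : ℤ, (τ = 1 ∨ τ = -1) ∧
      ∑ D1 ∈ adm k A, (∏ i, (s i) ^ (x i)) * ∏ p ∈ D1, (χ p * ∏ i, (e i p) ^ (x i)) =
      if cnd A (fun p => χ p * ∏ i, (e i p) ^ (x i)) then 2 ^ ex A * τ else 0 := by
    intro x
    have hE : ∀ p ∈ A, χ p * ∏ i, (e i p) ^ (x i) = 1 ∨ χ p * ∏ i, (e i p) ^ (x i) = -1 := by
      intro p hp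
      rcases pm_prod Finset.univ (fun i => (e i p) ^ (x i)) (fun i _ => pm_pow _ (he i p hp) _)
        with h | h <;> rcases hχ p hp with h' | h' <;> rw [h, h'] <;> norm_num
    obtain ⟨τ, hτ, hτ'⟩ := sum_adm A k hk hA (fun p => χ p * ∏ i, (e i p) ^ (x i)) hE
    refine ⟨(∏ i, (s i) ^ (x i)) * τ, ?_, ?_⟩
    · rcases pm_prod Finset.univ (fun i => (s i) ^ (x i)) (fun i _ => pm_pow _ (hs i) _)
        with h | h <;> rcases hτ with h' | h' <;> rw [h, h'] <;> norm_num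
    · rw [← Finset.mul_sum, hτ']
      split_ifs with h
      · ring
      · ring
  choose τ hτ hτ' using h2
  refine ⟨τ, hτ, ?_⟩
  rw [Finset.sum_congr rfl fun x _ => hτ' x, ← Finset.sum_filter, ← Finset.mul_sum, TC]

theorem cnd_mul {A : Finset ℕ} {c d : ℕ → ℤ} (hc : cnd A c) (hd : cnd A d) :
    cnd A fun p => c p * d p := by
  refine ⟨fun p hp => ?_, fun r hr r' hr' => ?_, fun r hr r' hr' => ?_⟩
  · show c p * d p = 1
    rw [hc.1 p hp, hd.1 p hp, one_mul]
  · show c r * d r = c r' * d r'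
    rw [hc.2.1 r hr r' hr', hd.2.1 r hr r' hr']
  · show c r * d r = c r' * d r'
    rw [hc.2.2 r hr r' hr', hd.2.2 r hr r' hr']

theorem cnd_congr {A : Finset ℕ} {c d : ℕ → ℤ} (h : ∀ p ∈ A, c p = d p) (hc : cnd A c) :
    cnd A d := by
  refine ⟨fun p hp => ?_, fun r hr r' hr' => ?_, fun r hr r' hr' => ?_⟩
  · rw [← h p (Finset.mem_filter.1 hp).1]
    exact hc.1 p hp
  · rw [← h r (Finset.mem_filter.1 hr).1, ← h r' (Finset.mem_filter.1 hr').1]
    exact hc.2.1 r hr r' hr'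
  · rw [← h r (Finset.mem_filter.1 hr).1, ← h r' (Finset.mem_filter.1 hr').1]
    exact hc.2.2 r hr r' hr'

theorem flip_mem {V : ι → ℕ} {e : ι → ℕ → ℤ} {χ χ' : ℕ → ℤ} {A : Finset ℕ}
    (he : ∀ i, ∀ p ∈ A, e i p = 1 ∨ e i p = -1) (hχ : ∀ p ∈ A, χ p = 1 ∨ χ p = -1)
    (h : cnd A fun p => χ p * χ' p * ∏ i, (e i p) ^ (V i)) {x : ι → ℕ} (hx : x ∈ TC V e χ A) :
    (fun i => V i - x i) ∈ TC V e χ' A := by
  rw [mem_TC] at hx ⊢
  refine ⟨fun i => Nat.sub_le _ _, ?_⟩
  refine cnd_congr (fun p hp => ?_) (cnd_mul h hx.2)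
  have h1 : (∏ i, (e i p) ^ (V i - x i)) * ∏ i, (e i p) ^ (x i) = ∏ i, (e i p) ^ (V i) := by
    rw [← Finset.prod_mul_distrib]
    refine Finset.prod_congr rfl fun i _ => ?_
    rw [← pow_add, Nat.sub_add_cancel (hx.1 i)]
  have h2 : (∏ i, (e i p) ^ (x i)) * (∏ i, (e i p) ^ (x i)) = 1 := by
    rcases pm_prod Finset.univ (fun i => (e i p) ^ (x i))
      (fun i _ => pm_pow _ (he i p hp) _) with h | h <;> rw [h] <;> norm_num
  have h3 : χ p * χ p = 1 := by
    rcases hχ p hp with h | h <;> rw [h] <;> norm_num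
  show χ p * χ' p * (∏ i, (e i p) ^ (V i)) * (χ p * ∏ i, (e i p) ^ (x i)) =
    χ' p * ∏ i, (e i p) ^ (V i - x i)
  rw [← h1]
  calc χ p * χ' p * ((∏ i, (e i p) ^ (V i - x i)) * ∏ i, (e i p) ^ (x i)) *
        (χ p * ∏ i, (e i p) ^ (x i))
      = (χ p * χ p) * ((∏ i, (e i p) ^ (x i)) * (∏ i, (e i p) ^ (x i))) *
        (χ' p * ∏ i, (e i p) ^ (V i - x i)) := by ring
    _ = _ := by rw [h2, h3, one_mul, one_mul]

theorem flip_flip {V : ι → ℕ} {e : ι → ℕ → ℤ} {χ : ℕ → ℤ} {A : Finset ℕ} {x : ι → ℕ}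
    (hx : x ∈ TC V e χ A) : (fun i => V i - (V i - x i)) = x := by
  funext i
  have := (mem_TC.1 hx).1 i
  omega

end

/-- ABS1: the sum over the subsets of type `k` -/
theorem t_ABS1 : S_ABS1 := by
  intro ι _ _ V s e χ A k hk hA hs he hχ
  obtain ⟨τ, hτ, hsum⟩ := abs_sum V s e χ A k hk hA hs he hχ
  exact ⟨_, hsum, sum_parity _ _ fun x _ => hτ x⟩

/-- ABS2: the parity of the number of exponent vectors -/
theorem t_ABS2 : S_ABS2 := by
  intro ι _ _ V e A hA he hV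
  classical
  have hinv : ∀ x ∈ TC V e (fun _ => 1) A, (fun i => V i - x i) ∈ TC V e (fun _ => 1) A := by
    intro x hx
    refine flip_mem he (fun _ _ => Or.inl rfl) ?_ hx
    refine cnd_congr (fun p _ => ?_) hV
    show ∏ i, (e i p) ^ (V i) = 1 * 1 * ∏ i, (e i p) ^ (V i)
    rw [one_mul, one_mul]
  set F := (TC V e (fun _ => 1) A).filter fun x => (fun i => V i - x i) = x with hF
  have hpar : ((TC V e (fun _ => 1) A).card : ZMod 2) = (F.card : ZMod 2) := by
    rw [← Finset.card_filter_add_card_filter_not (s := TC V e (fun _ => 1) A)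
      (fun x => (fun i => V i - x i) = x)]
    push_cast
    rw [← hF]
    have : (((TC V e (fun _ => 1) A).filter fun x => ¬ (fun i => V i - x i) = x).card :
        ZMod 2) = 0 := by
      rw [Finset.card_eq_sum_ones]
      push_cast
      refine Finset.sum_involution (fun x _ => fun i => V i - x i) ?_ ?_ ?_ ?_
      · intro x _; decide
      · intro x hx _
        exact (Finset.mem_filter.1 hx).2
      · intro x hx
        rw [Finset.mem_filter] at hx ⊢
        refine ⟨hinv x hx.1, fun h => hx.2 ?_⟩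
        have hx1 := (mem_TC.1 hx.1).1
        funext i
        have := congrFun h i
        have h2 := hx1 i
        simp only at this ⊢
        omega
      · intro x hx
        exact flip_flip (Finset.mem_filter.1 hx).1
    rw [this, add_zero]
  have hodd : Odd (TC V e (fun _ => 1) A).card ↔ Odd F.card := by
    rw [← ZMod.natCast_eq_one_iff_odd, ← ZMod.natCast_eq_one_iff_odd, hpar]
  rw [hodd]
  have hcn : ∀ x : ι → ℕ, (∀ i, V i = 2 * x i) →
      ((cnd A fun p => ∏ i, (e i p) ^ (V i / 2)) ↔ cnd A fun p => 1 * ∏ i, (e i p) ^ (x i)) := by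
    intro x hx
    have : (fun p => ∏ i, (e i p) ^ (V i / 2)) = fun p => 1 * ∏ i, (e i p) ^ (x i) := by
      funext p
      rw [one_mul]
      refine Finset.prod_congr rfl fun i _ => ?_
      rw [hx i, Nat.mul_div_cancel_left _ (by norm_num)]
    rw [this]
  constructor
  · intro h
    have hpos : F.Nonempty := by
      rw [← Finset.card_pos]
      exact h.pos
    obtain ⟨x, hx⟩ := hpos
    rw [hF, Finset.mem_filter, mem_TC] at hx
    obtain ⟨⟨h1, h2⟩, h3⟩ := hx
    have h4 : ∀ i, V i = 2 * x i := by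
      intro i
      have k1 : V i - x i = x i := congrFun h3 i
      have k2 := h1 i
      omega
    exact ⟨fun i => ⟨x i, by rw [h4 i]; ring⟩, (hcn x h4).2 h2⟩
  · rintro ⟨h1, h2⟩
    have h4 : ∀ i, V i = 2 * (V i / 2) := by
      intro i
      have := Nat.div_mul_cancel (even_iff_two_dvd.1 (h1 i))
      omega
    have : F = {fun i => V i / 2} := by
      ext x
      rw [hF, Finset.mem_filter, mem_TC, Finset.mem_singleton]
      constructor
      · rintro ⟨⟨h3, -⟩, h4⟩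
        funext i
        have k1 : V i - x i = x i := congrFun h4 i
        have k2 := h3 i
        show x i = V i / 2
        omega
      · rintro rfl
        refine ⟨⟨fun i => Nat.div_le_self _ _, (hcn _ h4).1 h2⟩, ?_⟩
        funext i
        have := Nat.div_mul_cancel (even_iff_two_dvd.1 (h1 i))
        show V i - V i / 2 = V i / 2
        omega
    rw [this, Finset.card_singleton]
    exact odd_one

/-- ABS3: two characters with the same number of exponent vectors -/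
theorem t_ABS3 : S_ABS3 := by
  intro ι _ _ V e χ χ' A hA he hχ hχ' h
  have h' : cnd A fun p => χ' p * χ p * ∏ i, (e i p) ^ (V i) :=
    cnd_congr (fun p _ => by ring) h
  refine Finset.card_bij' (fun x _ => fun i => V i - x i) (fun x _ => fun i => V i - x i) ?_ ?_ ?_ ?_
  · intro x hx
    exact flip_mem he hχ h hx
  · intro x hx
    exact flip_mem he hχ' h' hx
  · intro x hx
    exact flip_flip hx
  · intro x hx
    exact flip_flip hx

end Pool.Agent.Y948.G
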